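import Pool.Agent.H78.U.BAN
import Pool.Agent.H89.U3.Stmts

/-!
# Project U3, BANC: Banach's fixed point theorem with an additive continuous parameter
-/

namespace Pool.Agent.H78.U3

open Pool.Agent.H26.U Pool.Agent.H15.U Pool.Agent.H78.U Pool.Agent.H89.U3

theorem nw_add_le {X : Type} [Fintype X] (ω : X → ℝ) (hω : ∀ x, 0 < ω x) (p q : X → ℂ) :
    nw ω (fun x => p x + q x) ≤ nw ω p + nw ω q := by
  have h : sc ω (fun x => p x + q x) = sc ω p + sc ω q := by
    ext x
    simp only [sc, PiLp.add_apply]
    ring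
  rw [← norm_sc ω hω, h, ← norm_sc ω hω, ← norm_sc ω hω]
  exact norm_add_le _ _

theorem cont_sc {X T : Type} [Fintype X] [TopologicalSpace T] (ω : X → ℝ) (g : T → X → ℂ)
    (hg : Continuous g) : Continuous fun t => sc ω (g t) := by
  refine (PiLp.continuous_toLp 2 _).comp ?_
  fun_prop

theorem cont_un {X T : Type} [Fintype X] [TopologicalSpace T] (ω : X → ℝ)
    (v : T → EuclideanSpace ℂ X) (hv : Continuous v) : Continuous fun t => un ω (v t) := by
  unfold un
  fun_prop

theorem BANC : S_BANC := by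
  intro X _ ω hω T _ g Q A L ε R hg hA hL hε hR hs h0 hQ hsmall
  have hK0 : 0 ≤ 4 * A ^ 2 * L * R + 2 * A * ε := by positivity
  set K := 4 * A ^ 2 * L * R + 2 * A * ε with hK
  have hfix : ∀ t, ∃ r : X → ℂ, (fun x => g t x + Q r x) = r ∧ nw ω r ≤ 2 * A * R := by
    intro t
    refine BAN X ω hω (fun r x => g t x + Q r x) A L ε R hA hL hε hR hs (fun x => h0 t x) ?_ hsmall
    intro r r' hr hr' x
    have := hQ r r' hr hr' x
    simpa only [add_sub_add_left_eq_sub] using this
  choose r hr1 hr2 using hfix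
  have hlip : ∀ t t', ‖sc ω (r t) - sc ω (r t')‖ ≤ 1 / (1 - K) * ‖sc ω (g t) - sc ω (g t')‖ := by
    intro t t'
    rw [sc_sub, sc_sub, norm_sc ω hω, norm_sc ω hω]
    have h1 : (fun x => r t x - r t' x) = fun x => (g t x - g t' x) + (Q (r t) x - Q (r t') x) := by
      funext x
      have e1 : g t x + Q (r t) x = r t x := congrFun (hr1 t) x
      have e2 : g t' x + Q (r t') x = r t' x := congrFun (hr1 t') x
      linear_combination e2 - e1
    have h2 : nw ω (fun x => Q (r t) x - Q (r t') x) ≤ K * nw ω (fun x => r t x - r t' x) := by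
      have h3 : ∀ x, ‖Q (r t) x - Q (r t') x‖ ≤
          (L * (2 * A * R + 2 * A * R) + ε) * nw ω (fun x => r t x - r t' x) := by
        intro x
        refine (hQ _ _ (hr2 t) (hr2 t') x).trans ?_
        apply mul_le_mul_of_nonneg_right _ (nw_nonneg _ _)
        have := mul_le_mul_of_nonneg_left (add_le_add (hr2 t) (hr2 t')) hL
        linarith
      have hn := nw_nonneg ω (fun x => r t x - r t' x)
      refine (nw_le ω hω hA (by positivity) hs _ h3).trans ?_
      have h5 : A * ((L * (2 * A * R + 2 * A * R) + ε) * nw ω (fun x => r t x - r t' x))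
          = (4 * A ^ 2 * L * R + A * ε) * nw ω (fun x => r t x - r t' x) := by ring
      rw [h5]
      apply mul_le_mul_of_nonneg_right _ hn
      have : 0 ≤ A * ε := by positivity
      rw [hK]
      linarith
    have h4 := nw_add_le ω hω (fun x => g t x - g t' x) (fun x => Q (r t) x - Q (r t') x)
    rw [← h1] at h4
    have hpos : 0 < 1 - K := by linarith
    rw [one_div, ← div_eq_inv_mul, le_div_iff₀ hpos]
    nlinarith
  have hcs : Continuous fun t => sc ω (r t) := by
    refine continuous_iff_continuousAt.2 fun t0 => ?_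
    refine tendsto_iff_dist_tendsto_zero.2 ?_
    have hlim : Filter.Tendsto (fun t => 1 / (1 - K) * dist (sc ω (g t)) (sc ω (g t0)))
        (nhds t0) (nhds 0) := by
      have h1 := (cont_sc ω g hg).continuousAt (x := t0)
      have h2 := (tendsto_iff_dist_tendsto_zero.1 h1).const_mul (1 / (1 - K))
      rwa [mul_zero] at h2
    refine squeeze_zero (fun _ => dist_nonneg) (fun t => ?_) hlim
    rw [dist_eq_norm, dist_eq_norm]
    exact hlip t t0
  refine ⟨r, ?_, fun t => ⟨hr1 t, hr2 t⟩⟩
  have h1 := cont_un ω _ hcs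
  have h2 : (fun t => un ω (sc ω (r t))) = r := by
    funext t
    exact un_sc ω hω (r t)
  rwa [h2] at h1

end Pool.Agent.H78.U3
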